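import Pool.Agent.Lib.MP_eb8f1d_pr.OddOpt

/-!
# Biased coins with coloured sides: optimal colourings for every bias and all large `n`

For every bias `p` and all `n ≥ N(p)` the largest median of the number of visible colours is
attained by `n / 2` opposite pairs of coins if `n` is even; if `n` is odd, by three coins in a
cyclic pattern and opposite pairs when `p (1 - p) ≤ 2 / 11`, and by five coins in a cyclic pattern
and opposite pairs when `p (1 - p) ≥ 2 / 11`.
-/

namespace Pool.Agent.Results.MP_eb8f1d_pr.AllBiases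

open Pool.Agent.Lib.MP_eb8f1d_pr

theorem result (p : ℝ) (h0 : 0 < p) (h1 : p < 1) :
    ∃ N : ℕ, ∀ n ≥ N,
      (Even n →
        M n p = n - sInf {k : ℕ | 1 / 2 ≤ F2 n (p * (1 - p)) k} ∧
        ∀ (σ : Equiv.Perm (Fin n)) (hσ : ∀ i, σ i ≠ i),
          σ.cycleType = Multiset.replicate (n / 2) 2 → med p (ofPerm σ hσ) = M n p) ∧
      (Odd n → p * (1 - p) ≤ 2 / 11 →
        M n p = n - sInf {k : ℕ | 1 / 2 ≤ F3 n (p * (1 - p)) k} ∧
        ∀ (σ : Equiv.Perm (Fin n)) (hσ : ∀ i, σ i ≠ i),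
          σ.cycleType = 3 ::ₘ Multiset.replicate ((n - 3) / 2) 2 →
          med p (ofPerm σ hσ) = M n p) ∧
      (Odd n → 2 / 11 ≤ p * (1 - p) →
        M n p = n - sInf {k : ℕ | 1 / 2 ≤ F5 n (p * (1 - p)) k} ∧
        ∀ (τ : Equiv.Perm (Fin n)) (hτ : ∀ i, τ i ≠ i),
          τ.cycleType = 5 ::ₘ Multiset.replicate ((n - 5) / 2) 2 →
          med p (ofPerm τ hτ) = M n p) := by
  obtain ⟨N1, H1⟩ := all_even p h0 h1
  obtain ⟨N2, H2⟩ := all_odd p h0 h1
  exact ⟨max N1 N2, fun n hn => ⟨H1 n (le_trans (le_max_left _ _) hn),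
    fun ho hle => (H2 n (le_trans (le_max_right _ _) hn) ho).1 hle,
    fun ho hge => (H2 n (le_trans (le_max_right _ _) hn) ho).2 hge⟩⟩

end Pool.Agent.Results.MP_eb8f1d_pr.AllBiases
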