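import Pool.Agent.Lib.MP_eb8f1d_pr.Fair

/-!
# Fair coins with coloured sides: the maximal median for every `n`

For `p = 1 / 2` and every `n ≥ 2` the maximal median of the number of visible colours is
`(3 n + 2) / 4` rounded down, attained by `n / 2` opposite pairs of coins (`n` even),
respectively by three coins in a cyclic pattern and opposite pairs (`n` odd).
-/

namespace Pool.Agent.Results.MP_eb8f1d_pr.FairCoins

open Pool.Agent.Lib.MP_eb8f1d_pr

theorem result (n : ℕ) (hn : 2 ≤ n) :
    M n (1 / 2) = (3 * n + 2) / 4 ∧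
    (Even n → ∀ (σ : Equiv.Perm (Fin n)) (hσ : ∀ i, σ i ≠ i),
      σ.cycleType = Multiset.replicate (n / 2) 2 →
        med (1 / 2) (ofPerm σ hσ) = M n (1 / 2)) ∧
    (Odd n → ∀ (σ : Equiv.Perm (Fin n)) (hσ : ∀ i, σ i ≠ i),
      σ.cycleType = 3 ::ₘ Multiset.replicate ((n - 3) / 2) 2 →
        med (1 / 2) (ofPerm σ hσ) = M n (1 / 2)) := fair_main hn

end Pool.Agent.Results.MP_eb8f1d_pr.FairCoins
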