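import Pool.Agent.Lib.MP_eb8f1d_pr.AllSeenReg

/-!
# Coins with coloured sides: optimal colourings when `n p (1 - p) ≤ 3 / 2`

For `n p (1 - p) ≤ 3 / 2` (in particular for all `n ≤ 6` and every bias `p`) the largest median of
the number of visible colours is `n` if `pAll n p ≥ 1 / 2` and `n - 1` otherwise; optimal are
opposite pairs of coins (`n` even), pairs and one more coin whose more likely side has a colour of
its own (`n` odd, median `n`), pairs and three coins in a cyclic pattern (`n` odd, median `n - 1`).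
-/

namespace Pool.Agent.Results.MP_eb8f1d_pr.LowVariance

open Pool.Agent.Lib.MP_eb8f1d_pr

theorem result (n : ℕ) (hn : 2 ≤ n) (p : ℝ) (h0 : 0 < p) (h1 : p < 1)
    (hnp : n * (p * (1 - p)) ≤ 3 / 2) :
    (1 / 2 ≤ pAll n p → M n p = n) ∧ (pAll n p < 1 / 2 → M n p = n - 1) ∧
    (Even n → ∀ (σ : Equiv.Perm (Fin n)) (hσ : ∀ i, σ i ≠ i),
      σ.cycleType = Multiset.replicate (n / 2) 2 → med p (ofPerm σ hσ) = M n p) ∧
    (Odd n → 1 / 2 ≤ pAll n p →
      ∀ (c : Coloring n) (σ : Equiv.Perm (Fin n)) (e : Fin n), PairsAndOne p c σ e →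
        med p c = M n p) ∧
    (Odd n → pAll n p < 1 / 2 → ∀ (σ : Equiv.Perm (Fin n)) (hσ : ∀ i, σ i ≠ i),
      σ.cycleType = 3 ::ₘ Multiset.replicate ((n - 3) / 2) 2 → med p (ofPerm σ hσ) = M n p) :=
  AllSeen.main n hn p h0 h1 hnp

end Pool.Agent.Results.MP_eb8f1d_pr.LowVariance
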