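import Pool.Agent.Lib.MP_eb8f1d_pr.RareSharp

/-!
# Coins with coloured sides: few coins on the less likely side

`r` is the probability of one side of the coins (heads or tails) and `K` the number of coins which
show it. If `P(K ≤ k) ≥ 1 / 2`, the median of every permutation colouring is at least `n - k`. If
`n r ^ 2 + 2 j r < 1 / 2` and
`P(K < j) + ∑_{m = j}^n P(K = m) (2 j m / n + m (m - 1) / (n - 1)) / (m - j + 1) < 1 / 2`,
the largest median of the number of visible colours is at most `n - j`. So it is `n - k` for `j = k`.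
-/

namespace Pool.Agent.Results.MP_eb8f1d_pr.RareHeads

open Pool.Agent.Lib.MP_eb8f1d_pr

theorem result (n j k : ℕ) (hn : 2 ≤ n) (p r : ℝ) (h0 : 0 < p) (h1 : p < 1)
    (hr : r = p ∨ r = 1 - p)
    (hj0 : n * r ^ 2 + 2 * j * r < 1 / 2)
    (hj1 : bcdf n r j + ∑ m ∈ Finset.Icc j n, bin n r m *
        ((2 * j * m / n + m * (m - 1) / (n - 1)) / (m - j + 1)) < 1 / 2)
    (hk : 1 / 2 ≤ bcdf n r (k + 1)) :
    n - k ≤ M n p ∧ M n p ≤ n - j ∧ ∀ c : Coloring n, IsPerm c → n - k ≤ med p c :=
  Rare.main_two n j k hn p r h0 h1 hr hj0 hj1 hk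

end Pool.Agent.Results.MP_eb8f1d_pr.RareHeads
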